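import Pool.Agent.W587.MX.Stm

/-! MX-INIT: the starting simple point. -/

set_option autoImplicit false

namespace Pool.Agent.W863.MX

open Set Filter Topology Metric
open Pool.Agent.W587.MX

theorem choose_pts {K : ℕ} {S : Set ℂ} (h : (K : ℕ∞) ≤ S.encard) :
    ∃ z : Fin K → ℂ, Function.Injective z ∧ ∀ i, z i ∈ S := by
  obtain ⟨t, hts, ht⟩ := Set.exists_subset_encard_eq h
  have hfin : t.Finite := Set.finite_of_encard_eq_coe ht
  have hF : Finite t := hfin
  have hcard : Nat.card t = K := by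
    rw [Nat.card_coe_set_eq, Set.ncard, ht]
    rfl
  let e := Finite.equivFinOfCardEq hcard
  refine ⟨fun i => (e.symm i : ℂ), ?_, fun i => hts (e.symm i).2⟩
  intro i j hij
  exact e.symm.injective (Subtype.ext hij)

theorem init (_ : T1_UNIQ) (hP1 : P1_TOUCH) (hP2 : P2_GOOD) (hP3 : P3_AVOID) (hP4 : P4_CONJ)
    (hP5 : P5_LINV) : P6_INIT := by
  intro f K hf hf0 hfd hK hev
  obtain ⟨M, hM1, hM2, hM3, hM4⟩ := hP2 f hf
  obtain ⟨r0, hr0⟩ := eventually_atTop.1 hev
  obtain ⟨rs, hrs0, hrs, hav⟩ := hP3 f hf hf0 hfd r0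
  -- the ultrafilter
  have hfr := hM4 rs hrs
  have hne : NeBot (𝓝[≠] rs ⊓ 𝓟 {s : ℝ | DifferentiableAt ℝ M s}) :=
    frequently_mem_iff_neBot.1 hfr
  let U : Ultrafilter ℝ := Ultrafilter.of (𝓝[≠] rs ⊓ 𝓟 {s : ℝ | DifferentiableAt ℝ M s})
  have hU : (U : Filter ℝ) ≤ 𝓝[≠] rs ⊓ 𝓟 {s : ℝ | DifferentiableAt ℝ M s} := Ultrafilter.of_le _
  have hU1 : (U : Filter ℝ) ≤ 𝓝[≠] rs := hU.trans inf_le_left
  have hU2 : (U : Filter ℝ) ≤ 𝓝 rs := hU1.trans nhdsWithin_le_nhds
  have hUd : ∀ᶠ s in (U : Filter ℝ), DifferentiableAt ℝ M s := hU.trans inf_le_right (mem_principal_self _)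
  have hUne : ∀ᶠ s in (U : Filter ℝ), s ≠ rs := hU1 self_mem_nhdsWithin
  have hUr0 : ∀ᶠ s in (U : Filter ℝ), r0 < s := hU2 (lt_mem_nhds hrs0)
  have hUpos : ∀ᶠ s in (U : Filter ℝ), 0 < s := hU2 (lt_mem_nhds hrs)
  have hUid : Tendsto (fun s : ℝ => s) (U : Filter ℝ) (𝓝 rs) := hU2
  -- maximum points
  have hch : ∀ s : ℝ, ∃ z : Fin K → ℂ, (r0 < s → 0 < s →
      Function.Injective z ∧ ∀ i, ‖z i‖ = s ∧ ‖f (z i)‖ = M s) := by
    intro s
    by_cases h : r0 < s ∧ 0 < s
    · obtain ⟨h1, h2⟩ := h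
      obtain ⟨z, hz1, hz2⟩ := choose_pts (hr0 s h1.le)
      refine ⟨z, fun _ _ => ⟨hz1, fun i => ?_⟩⟩
      obtain ⟨h3, h4⟩ := hz2 i
      refine ⟨h3, le_antisymm ?_ ?_⟩
      · have h5 : z i ≠ 0 := by
          intro h0
          rw [h0, norm_zero] at h3
          exact absurd h3 h2.ne
        have := hM1 (z i) h5
        rwa [h3] at this
      · obtain ⟨z', h5, h6⟩ := hM2 s h2
        rw [← h6]
        exact h4 z' h5
    · exact ⟨fun _ => 0, fun h1 h2 => absurd ⟨h1, h2⟩ h⟩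
  choose z hz using hch
  have hzinj : ∀ᶠ s in (U : Filter ℝ), Function.Injective (z s) := by
    filter_upwards [hUr0, hUpos] with s h1 h2 using (hz s h1 h2).1
  have hznorm : ∀ i, ∀ᶠ s in (U : Filter ℝ), ‖z s i‖ = s := by
    intro i
    filter_upwards [hUr0, hUpos] with s h1 h2 using ((hz s h1 h2).2 i).1
  have hzM : ∀ i, ∀ᶠ s in (U : Filter ℝ), ‖f (z s i)‖ = M s := by
    intro i
    filter_upwards [hUr0, hUpos] with s h1 h2 using ((hz s h1 h2).2 i).2
  have hf0' : 0 < ‖f 0‖ := norm_pos_iff.2 hf0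
  have hfz : ∀ i, ∀ᶠ s in (U : Filter ℝ), f (z s i) ≠ 0 := by
    intro i
    filter_upwards [hzM i, hUpos] with s h1 h2
    have h3 := hM3 s h2
    rw [← h1] at h3
    exact norm_pos_iff.1 (hf0'.trans_le h3)
  -- limits
  have hlim : ∀ i, ∃ x : ℂ, Tendsto (fun s => z s i) (U : Filter ℝ) (𝓝 x) := by
    intro i
    have hcomp : IsCompact (closedBall (0 : ℂ) (rs + 1)) := isCompact_closedBall _ _
    have hle : ((U.map (fun s => z s i) : Ultrafilter ℂ) : Filter ℂ)
        ≤ 𝓟 (closedBall (0 : ℂ) (rs + 1)) := by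
      rw [le_principal_iff]
      show (fun s => z s i) ⁻¹' (closedBall (0 : ℂ) (rs + 1)) ∈ (U : Filter ℝ)
      have h1 : ∀ᶠ s in (U : Filter ℝ), s < rs + 1 := hU2 (gt_mem_nhds (by linarith))
      filter_upwards [h1, hznorm i] with s h2 h3
      show z s i ∈ closedBall (0 : ℂ) (rs + 1)
      rw [mem_closedBall_zero_iff, h3]
      exact h2.le
    obtain ⟨x, _, hx⟩ := hcomp.ultrafilter_le_nhds _ hle
    exact ⟨x, hx⟩
  choose zs hzs using hlim
  have hzsn : ∀ i, ‖zs i‖ = rs := by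
    intro i
    have h1 : Tendsto (fun s => ‖z s i‖) (U : Filter ℝ) (𝓝 ‖zs i‖) := (hzs i).norm
    have h2 : Tendsto (fun s => ‖z s i‖) (U : Filter ℝ) (𝓝 rs) := by
      refine hUid.congr' ?_
      filter_upwards [hznorm i] with s h using h.symm
    exact tendsto_nhds_unique h1 h2
  have hzs0 : ∀ i, zs i ≠ 0 := by
    intro i h0
    have := hzsn i
    rw [h0, norm_zero] at this
    exact absurd this hrs.ne
  have hfzs : ∀ i, f (zs i) ≠ 0 := by
    intro i
    have h1 : Tendsto (fun s => ‖f (z s i)‖) (U : Filter ℝ) (𝓝 ‖f (zs i)‖) :=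
      ((hf.continuous.tendsto (zs i)).comp (hzs i)).norm
    have h2 : ‖f 0‖ ≤ ‖f (zs i)‖ := by
      refine ge_of_tendsto h1 ?_
      filter_upwards [hzM i, hUpos] with s h3 h4
      rw [h3]
      exact hM3 s h4
    exact norm_pos_iff.1 (hf0'.trans_le h2)
  have hder := fun i => hav (zs i) (hzsn i) (hfzs i)
  -- the function F
  have hdc : Continuous (deriv f) := by
    have : ContDiff ℂ 2 f := hf.contDiff
    exact this.continuous_deriv (by norm_num)
  have hFc : ∀ i, ContinuousAt (fun z => z * deriv f z / f z) (zs i) := by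
    intro i
    exact ((continuousAt_id.mul hdc.continuousAt).div hf.continuous.continuousAt (hfzs i))
  let a : ℝ → ℝ := fun s => s * deriv M s / M s
  have ha : ∀ i, ∀ᶠ s in (U : Filter ℝ), z s i * deriv f (z s i) = (a s : ℂ) * f (z s i) := by
    intro i
    filter_upwards [hUd, hUpos, hznorm i, hzM i, hfz i] with s h1 h2 h3 h4 h5
    exact hP1 f M s hf h2 h1 hM1 (z s i) h3 h4 h5
  have haF : ∀ i, ∀ᶠ s in (U : Filter ℝ), z s i * deriv f (z s i) / f (z s i) = (a s : ℂ) := by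
    intro i
    filter_upwards [ha i, hfz i] with s h1 h2
    rw [h1, mul_div_assoc, div_self h2, mul_one]
  have halim : ∀ i, Tendsto (fun s => (a s : ℂ)) (U : Filter ℝ)
      (𝓝 (zs i * deriv f (zs i) / f (zs i))) := by
    intro i
    have h1 : Tendsto (fun s => z s i * deriv f (z s i) / f (z s i)) (U : Filter ℝ)
        (𝓝 (zs i * deriv f (zs i) / f (zs i))) := (hFc i).tendsto.comp (hzs i)
    exact h1.congr' (haF i)
  let i0 : Fin K := ⟨0, hK⟩
  obtain ⟨as, has⟩ : ∃ as : ℂ, as = zs i0 * deriv f (zs i0) / f (zs i0) := ⟨_, rfl⟩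
  have hasi : ∀ i, zs i * deriv f (zs i) / f (zs i) = as := by
    intro i
    rw [has]
    exact tendsto_nhds_unique (halim i) (halim i0)
  have hat : Tendsto (fun s => (a s : ℂ)) (U : Filter ℝ) (𝓝 as) := by
    rw [has]; exact halim i0
  have has0 : as ≠ 0 := by
    rw [has]
    exact div_ne_zero (mul_ne_zero (hzs0 i0) (hder i0).1) (hfzs i0)
  have hasc : (starRingEnd ℂ) as = as := by
    have h1 : Tendsto (fun s => (starRingEnd ℂ) (a s : ℂ)) (U : Filter ℝ)
        (𝓝 ((starRingEnd ℂ) as)) := (Complex.continuous_conj.tendsto as).comp hat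
    have h2 : Tendsto (fun s => (starRingEnd ℂ) (a s : ℂ)) (U : Filter ℝ) (𝓝 as) := by
      refine hat.congr' (Eventually.of_forall fun s => ?_)
      exact (Complex.conj_ofReal (a s)).symm
    exact tendsto_nhds_unique h1 h2
  -- local inverses
  have hZ : ∀ i, ∃ Z : ℂ → ℂ, Inv f as Z ∧ Z as = zs i ∧
      ∀ᶠ z in 𝓝 (zs i), Z (z * deriv f z / f z) = z := by
    intro i
    obtain ⟨Z, h1, h2, h3⟩ := hP5 f (zs i) hf (hfzs i) (hder i).2
    rw [hasi i] at h1 h2
    exact ⟨Z, h1, h2, h3⟩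
  choose Z hZ1 hZ2 hZ3 using hZ
  have hZa : ∀ i, ∀ᶠ s in (U : Filter ℝ), Z i (a s) = z s i := by
    intro i
    filter_upwards [(hzs i).eventually (hZ3 i), haF i] with s h1 h2
    rw [← h2]; exact h1
  have hzsinj : Function.Injective zs := by
    intro i j hij
    by_contra hne'
    have h1 : ∀ᶠ s in (U : Filter ℝ), Z i (a s) = z s j := by
      have h2 : ∀ᶠ z in 𝓝 (zs j), Z i (z * deriv f z / f z) = z := by
        rw [← hij]; exact hZ3 i
      filter_upwards [(hzs j).eventually h2, haF j] with s h3 h4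
      rw [← h4]; exact h3
    have h2 : ∀ᶠ s in (U : Filter ℝ), False := by
      filter_upwards [h1, hZa i, hzinj] with s h3 h4 h5
      exact hne' (h5 (h4.symm.trans h3))
    exact absurd h2 (by simp [U.neBot.ne])
  -- conjugates
  have hW1 : ∀ i, Inv (cj f) as (cj (Z i)) := by
    intro i
    have := (hP4 f hf).2.2 as (Z i) (hZ1 i)
    rwa [hasc] at this
  have hW2 : ∀ i, cj (Z i) as = (starRingEnd ℂ) (zs i) := by
    intro i
    show (starRingEnd ℂ) (Z i ((starRingEnd ℂ) as)) = _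
    rw [hasc, hZ2]
  have hprod : ∀ i, ∀ᶠ s in (U : Filter ℝ), Z i (a s) * cj (Z i) (a s) = ((s ^ 2 : ℝ) : ℂ) := by
    intro i
    filter_upwards [hZa i, hznorm i] with s h1 h2
    show Z i (a s) * (starRingEnd ℂ) (Z i ((starRingEnd ℂ) (a s : ℂ))) = _
    rw [Complex.conj_ofReal, h1, Complex.mul_conj, Complex.normSq_eq_norm_sq, h2]
  have hane : ∀ᶠ s in (U : Filter ℝ), (a s : ℂ) ≠ as := by
    filter_upwards [hZa i0, hznorm i0, hUne] with s h1 h2 h3 h4
    rw [h4, hZ2] at h1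
    have h5 := hzsn i0
    rw [h1, h2] at h5
    exact h3 h5
  have hat' : Tendsto (fun s => (a s : ℂ)) (U : Filter ℝ) (𝓝[≠] as) :=
    tendsto_nhdsWithin_iff.2 ⟨hat, hane⟩
  refine ⟨as, zs, fun i => (starRingEnd ℂ) (zs i), has0, hzsinj, Z, fun i => cj (Z i),
    fun i => ⟨hZ1 i, hZ2 i⟩, fun i => ⟨hW1 i, hW2 i⟩, ?_, ?_⟩
  · intro i j
    have han : AnalyticAt ℂ (fun a => Z i a * cj (Z i) a - Z j a * cj (Z j) a) as :=
      ((hZ1 i).1.mul (hW1 i).1).sub ((hZ1 j).1.mul (hW1 j).1)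
    have hfreq : ∃ᶠ a in 𝓝[≠] as, Z i a * cj (Z i) a - Z j a * cj (Z j) a = 0 := by
      refine hat'.frequently (Eventually.frequently ?_)
      filter_upwards [hprod i, hprod j] with s h1 h2
      rw [h1, h2, sub_self]
    have h3 := han.frequently_zero_iff_eventually_zero.1 hfreq
    filter_upwards [h3] with a h4
    exact sub_eq_zero.1 h4
  · intro i hcon
    have h1 : ∀ᶠ s in (U : Filter ℝ), False := by
      filter_upwards [hat.eventually hcon, hprod i, hUne, hUpos] with s h2 h3 h4 h5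
      rw [h3] at h2
      have h6 : zs i * (starRingEnd ℂ) (zs i) = ((rs ^ 2 : ℝ) : ℂ) := by
        rw [Complex.mul_conj, Complex.normSq_eq_norm_sq, hzsn]
      rw [h6] at h2
      have h7 : s ^ 2 = rs ^ 2 := by exact_mod_cast h2
      have h8 : (s - rs) * (s + rs) = 0 := by linarith [h7, sq s, sq rs, mul_self_sub_mul_self s rs]
      rcases mul_eq_zero.1 h8 with h9 | h9
      · exact h4 (sub_eq_zero.1 h9)
      · linarith
    exact absurd h1 (by simp [U.neBot.ne])

end Pool.Agent.W863.MX
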